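import Pool.Agent.K4H59.TL.New
import Pool.Agent.K4H12.TLM0

set_option autoImplicit false

open Set

namespace Pool.Agent.K4H59.TL

open Pool.Agent.K4H72.Til (IsPolygon ShareEdge IsTiling Tile Derivable Adj HasLocEig patch shift)

section
variable {C : Type} {T : Set (Tile C)} (hT : IsTiling T) {rep : Set ℂ → Set ℂ} {t : Set ℂ → ℂ}
  (h1 : ∀ K, K = sh (t K) (rep K)) (h2 : ∀ K s, rep (sh s K) = rep K)
  {D₀ : Set ℂ → Set (Set ℂ)} {ρ₀ : Set ℂ → Set ℂ → ℕ} (hD : ∀ K, IsPolygon K → GoodDec K (D₀ K) (ρ₀ K))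

include hT h1 h2 hD

theorem newT_der_aux {x y : ℂ}
    (hxy : patch T (-x) (Metric.ball 0 1) = patch T (-y) (Metric.ball 0 1)) :
    patch (newT T rep t D₀) (-x) {0} ⊆ patch (newT T rep t D₀) (-y) {0} := by
  rintro q' ⟨⟨q, ⟨s, hs, Q₀, hQ₀, rfl⟩, rfl⟩, z, hz, hz0⟩
  rw [mem_singleton_iff] at hz0
  subst hz0
  -- the representative of `s` is a polygon
  have hrep : rep s.1 = sh (-t s.1) s.1 := by
    conv_rhs => rw [h1 s.1]
    rw [sh_sh]
    have h0 : rep (sh (t s.1) (rep s.1)) = rep s.1 := by rw [← h1 s.1]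
    ext w
    rw [mem_sh]
    have e1 : t (sh (t s.1) (rep s.1)) = t s.1 := by rw [← h1 s.1]
    rw [e1]
    simp
  have hpol : IsPolygon (rep s.1) := by
    rw [hrep]
    exact sh_polygon _ (hT.polygon s hs)
  have hsub : Q₀ ⊆ rep s.1 := (hD _ hpol).sub Q₀ hQ₀
  -- `0 ∈ -x + s`
  have hz' : (0 : ℂ) ∈ sh (-x) (sh (t s.1) Q₀) := hz
  have h0s : (0 : ℂ) ∈ sh (-x) s.1 := by
    rw [mem_sh, mem_sh] at hz'
    rw [mem_sh, h1 s.1, mem_sh]
    have e1 : t (sh (t s.1) (rep s.1)) = t s.1 := by rw [← h1 s.1]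
    exact hsub hz'
  have hmem : shift (-x) s ∈ patch T (-x) (Metric.ball 0 1) :=
    ⟨⟨s, hs, rfl⟩, 0, h0s, Metric.mem_ball_self one_pos⟩
  rw [hxy] at hmem
  obtain ⟨⟨s', hs', he⟩, -⟩ := hmem
  have he1 : sh (-y) s'.1 = sh (-x) s.1 := congrArg Prod.fst he
  have he2 : s'.2 = s.2 := by
    have h := congrArg Prod.snd he
    exact h
  have hs1 : s'.1 = sh (y - x) s.1 := by
    have := congrArg (sh y) he1
    rw [sh_sh, sh_sh] at this
    rw [show y + -y = 0 by ring] at this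
    have h00 : sh 0 s'.1 = s'.1 := by
      ext w
      rw [mem_sh, sub_zero]
    rw [h00] at this
    rw [this, sub_eq_add_neg]
  have hr : rep s'.1 = rep s.1 := by rw [hs1, h2]
  have ht : t s'.1 = (y - x) + t s.1 := by
    have e1 : sh (t s'.1) (rep s.1) = sh ((y - x) + t s.1) (rep s.1) := by
      rw [← hr, ← h1 s'.1, hs1, ← sh_sh, h2, ← h1 s.1]
    exact sh_inj hpol.1 hpol.2.1 e1
  refine ⟨⟨(sh (t s'.1) Q₀, (s'.2, rep s'.1, Q₀)), ⟨s', hs', Q₀, by rw [hr]; exact hQ₀, rfl⟩, ?_⟩,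
    0, hz, rfl⟩
  change (sh (-y) (sh (t s'.1) Q₀), (s'.2, rep s'.1, Q₀)) =
    (sh (-x) (sh (t s.1) Q₀), (s.2, rep s.1, Q₀))
  rw [he2, hr, ht, sh_sh, sh_sh]
  congr 2
  ring

/-- PIECE M4 -/
theorem newT_der : Derivable T (newT T rep t D₀) :=
  ⟨1, one_pos, fun _ _ hxy => Subset.antisymm (newT_der_aux hT h1 h2 hD hxy)
    (newT_der_aux hT h1 h2 hD hxy.symm)⟩

end

end Pool.Agent.K4H59.TL
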